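import Pool.Agent.Run7.h546.NL.Pair
import Pool.Agent.Y191.CorCP

/-!
The Campana-Peternell inequality for pairs on quasi-projective varieties given by nested sums of
high powers of monomials.
-/

set_option autoImplicit false
set_option linter.overlappingInstances false
set_option linter.unusedSectionVars false

open FF IntermediateField Pool.Agent.W603.LV Pool.Agent.W602.GT Pool.Agent.N133.PC
  Pool.Agent.TH710.ND
open Pool.Agent.Y172 (NormalModel IsPrimeDivisor Through OrdGe OrdEq Effective Integral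
  LogCanonical IsSection kodairaDim numericalDim IsFrame Centred chart)
open Pool.Agent.Y191 (LogDisc PsefSub IitakaGe cp_bound)

namespace Pool.Agent.Run7.h546.NL

section

variable {K : Type} [Field K] [Algebra ℂ K] {N n : ℕ} {y : Fin (N + 1) → K}

/-- no sections of large multiples (proof of `pair_not_psef`, helper133) -/
theorem pair_vanish (hy : NormalModel y) (hn : Algebra.trdeg ℂ K = n) {Δ : Place ℂ K → ℚ}
    (hLC : LogCanonical y n Δ) (δ : Derivation ℂ K K) {σ : K} (hσ0 : σ ≠ 0) (hσ : δ σ = σ)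
    (htop : (consts δ)⟮σ⟯ = ⊤)
    (hcan : ∀ Q, Divisorial n Q → Horiz δ Q → Q.ord σ = 0 → LogDisc y n Δ Q 1)
    (hklt : ∀ Q, Divisorial n Q → Horiz δ Q → 0 < Q.ord σ → ∃ α > 0, LogDisc y n Δ Q α)
    {A : Place ℂ K → ℚ} (hA : Effective y A) :
    ∃ m1 : ℕ, ∀ m : ℕ, m1 ≤ m → ∀ ω, IsSection y n m (m • Δ + A) ω → ω = 0 := by
  classical
  -- the coefficients
  obtain ⟨c, c0, hc0, hc, hc1, hc2⟩ : ∃ (c : Place ℂ K → ℚ) (c0 : ℚ), c0 < 1 ∧
      (∀ Q, Divisorial n Q → LogDisc y n Δ Q (1 - c Q)) ∧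
      (∀ P, Horiz δ P → P.ord σ = 0 → c P = 0) ∧ ∀ P, Horiz δ P → 0 < P.ord σ → c P ≤ c0 := by
    by_cases hex : ∃ Q, Divisorial n Q ∧ Horiz δ Q ∧ 0 < Q.ord σ
    · obtain ⟨Q0, h1, h2, h3⟩ := hex
      obtain ⟨α, hα, hd⟩ := hklt Q0 h1 h2 h3
      refine ⟨fun Q => if Horiz δ Q ∧ Q.ord σ = 0 then 0 else if Q = Q0 then 1 - α else 1,
        1 - α, by linarith, fun Q hQ => ?_, fun P hP h0 => if_pos ⟨hP, h0⟩, fun P hP h4 => ?_⟩
      · dsimp only
        split_ifs with h4 h5
        · rw [sub_zero]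
          exact hcan Q hQ h4.1 h4.2
        · rw [h5]
          have e : (1 : ℚ) - (1 - α) = α := by ring
          rw [e]
          exact hd
        · rw [sub_self]
          exact lc_disc hLC hQ
      · have h5 : P = Q0 := horiz_unique hσ0 htop hP h2 h4 h3
        dsimp only
        rw [if_neg (fun h => by omega), if_pos h5]
    · push Not at hex
      refine ⟨fun Q => if Horiz δ Q ∧ (Q.ord σ = 0 ∨ ¬ Divisorial n Q) then 0 else 1,
        1 / 2, by norm_num, fun Q hQ => ?_, fun P hP h0 => if_pos ⟨hP, Or.inl h0⟩,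
        fun P hP h4 => ?_⟩
      · dsimp only
        split_ifs with h4
        · rw [sub_zero]
          exact hcan Q hQ h4.1 (h4.2.resolve_right fun h => h hQ)
        · rw [sub_self]
          exact lc_disc hLC hQ
      · dsimp only
        rw [if_pos]
        · norm_num
        · refine ⟨hP, Or.inr fun h => ?_⟩
          have := hex P h hP
          omega
  obtain ⟨S, hS⟩ := secC_of_section hy hn hA hLC
  obtain ⟨N0, hN0⟩ := vanishC hn δ hσ0 hσ htop hc0 hc1 hc2 S
  refine ⟨N0 + 1, fun m hm ω hω => ?_⟩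
  funext D
  exact hN0 1 one_pos m (by omega) ω (hS c hc m (by omega) ω hω) D

end

section

variable {K : Type} [Field K] [Algebra ℂ K] {N w m p : ℕ} {y : Fin (N + 1) → K}
  {z : Fin (m + 1) → K}

/-- the same for one-parameter groups (proof of `pair_acts`, helper133) -/
theorem acts_vanish {U : Set (Fin (m + 1))} (hy : NormalModel y) (hn : Algebra.trdeg ℂ K = w)
    {Δ : Place ℂ K → ℚ} (hLC : LogCanonical y w Δ) (hzU : ∀ j ∈ U, z j ≠ 0)
    (hgen : coords ℂ z = ⊤) {b : Fin (m + 1) → ℤ}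
    {i i' : Fin (m + 1)} (hi : z i ≠ 0) (hi' : z i' ≠ 0) (hb : b i ≠ b i')
    (hmin : ∀ j ∈ U, ∀ l, z l ≠ 0 → b j ≤ b l)
    (hH : ∀ G : MvPolynomial (Fin (m + 1)) ℂ, IsForm G → val z G = 0 →
      ∀ v, val z (wc b v G) = 0)
    (hcan : ∀ Q, Divisorial w Q → LogDisc y w Δ Q 1 ∨ OverCoord z Q ∨ Tangent z b Q)
    (hklt : ∀ Q, Divisorial w Q → ¬ OffU U z Q → ∃ α > 0, LogDisc y w Δ Q α)
    {A : Place ℂ K → ℚ} (hA : Effective y A) :
    ∃ m1 : ℕ, ∀ n : ℕ, m1 ≤ n → ∀ ω, IsSection y w n (n • Δ + A) ω → ω = 0 := by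
  obtain ⟨δ, σ, g, b', hσ0, hσ, htop, hg, hb', hz⟩ := exists_delta hgen b hi hi' hb hH
  refine pair_vanish hy hn hLC δ hσ0 hσ htop (fun Q hQ hP h0 => ?_) (fun Q hQ hP hPσ => ?_) hA
  · rcases hcan Q hQ with h1 | ⟨j, l, hj, hl, hne⟩ | h1
    · exact h1
    · exact absurd (by
        rw [ord_ratio hσ0 hi hz hP hj, ord_ratio hσ0 hi hz hP hl, h0, mul_zero, mul_zero]) hne
    · exfalso
      refine not_derLog hσ0 hσ htop hP h0 (derLog_of_smul hg.ne' (h1 ((g : K) • δ) ?_))
      have hδ : ∀ j, δ (z j / z i) = ((b' j : ℤ) : K) * (z j / z i) := by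
        intro j
        by_cases hj : z j = 0
        · rw [hj, zero_div, map_zero, mul_zero]
        obtain ⟨u, hu0, hu, hzj⟩ := hz j hj
        rw [hzj, δ.leibniz, hu, smul_zero, add_zero, smul_eq_mul, Derivation.leibniz_zpow]
        rw [hσ]
        simp only [smul_eq_mul, zsmul_eq_mul]
        have h2 : σ ^ (b' j - 1) * σ = σ ^ b' j := by
          rw [← zpow_add_one₀ hσ0, sub_add_cancel]
        linear_combination (u * (b' j : K)) * h2
      intro j l hl
      by_cases hj : z j = 0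
      · rw [hj, zero_div, map_zero, mul_zero]
      rw [Derivation.smul_apply, smul_eq_mul]
      have h2 : z j / z l = (z j / z i) / (z l / z i) := by
        field_simp
      have h3 : z l / z i ≠ 0 := div_ne_zero hl hi
      have h4 : δ (z j / z l) = ((b' j - b' l : ℤ) : K) * (z j / z l) := by
        rw [h2, Derivation.leibniz_div, hδ, hδ]
        simp only [smul_eq_mul]
        push_cast
        field_simp
      rw [h4, ← mul_assoc]
      congr 1
      have h5 := hb' j hj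
      have h6 := hb' l hl
      have h7 : b j - b l = g * (b' j - b' l) := by
        linear_combination h5 - h6
      rw [h7]
      push_cast
      ring
  · refine hklt Q hQ ?_
    rintro ⟨j, hj, l, hl, hlt⟩
    rw [ord_ratio hσ0 hi hz hP hl, ord_ratio hσ0 hi hz hP (hzU j hj)] at hlt
    have h2 := hmin j hj l hl
    have h3 := hb' l hl
    have h4 := hb' j (hzU j hj)
    have h5 : 0 ≤ g * (b' l - b' j) := by
      rw [mul_sub, ← h3, ← h4]
      linarith
    have h6 : 0 ≤ b' l - b' j := by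
      by_contra hcon
      push Not at hcon
      have := mul_neg_of_pos_of_neg hg hcon
      linarith
    have h7 := mul_nonneg h6 hPσ.le
    nlinarith

/-- the upper bound (proof of `torus_pair`, helper133) -/
theorem torus_up (hy : NormalModel y) (hn : Algebra.trdeg ℂ K = w)
    {Δ : Place ℂ K → ℚ} (hΔ : Effective y Δ) (hLC : LogCanonical y w Δ)
    (hgen : coords ℂ z = ⊤) {b : Fin p → Fin (m + 1) → ℤ} {i0 : Fin (m + 1)}
    (hi0 : z i0 ≠ 0) {jj : Fin p → Fin (m + 1)} (hjj : ∀ l, z (jj l) ≠ 0)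
    (hb1 : ∀ l, b l (jj l) ≠ b l i0) (hb2 : ∀ l j, j ≠ l → b l (jj j) = b l i0)
    (hH : ∀ l, ∀ G : MvPolynomial (Fin (m + 1)) ℂ, IsForm G → val z G = 0 →
      ∀ v, val z (wc (b l) v G) = 0)
    (hcan : ∀ Q, Divisorial w Q → LogDisc y w Δ Q 1 ∨ OverCoord z Q ∨ ∀ l, Tangent z (b l) Q)
    {h : ℕ} (hh : h + p = w) :
    ∃ D : Fin w → Derivation ℂ K K, IsFrame D ∧ ∀ A, Effective y A → ∃ C : ℕ, ∀ m : ℕ, 1 ≤ m →
      ∀ (s : ℕ) (f : Fin s → K), LinearIndependent ℂ f →
        (∀ i, ∃ ω, IsSection y w m (m • Δ + A) ω ∧ ω D = f i) → s ≤ C * m ^ h := by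
  classical
  choose δ b' hδ hb' hlog using fun l : Fin p =>
    exists_delta' (z := z) hgen (b := b l) hi0 (hjj l) (hb1 l).symm (hH l)
  let r : Fin (m + 1) → K := fun j => if z j ≠ 0 then z j / z i0 else 1
  have hr : ∀ j, z j ≠ 0 → r j = z j / z i0 := fun j hj => if_pos hj
  have hr0 : ∀ j, r j ≠ 0 := by
    intro j
    simp only [r]
    split_ifs with h1
    · exact div_ne_zero h1 hi0
    · exact one_ne_zero
  let β : Fin p → Fin (m + 1) → ℤ := fun q j => if z j ≠ 0 then b' q j else 0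
  have hrδ : ∀ q i, δ q (r i) = (β q i : K) * r i := by
    intro q i
    by_cases hi : z i = 0
    · simp only [r, β, if_neg (not_not.2 hi)]
      rw [Int.cast_zero, zero_mul, Derivation.map_one_eq_zero]
    · simp only [r, β, if_pos (show z i ≠ 0 from hi)]
      exact hδ q i hi
  have htop : IntermediateField.adjoin ℂ (Set.range r) = ⊤ := by
    rw [← top_le_iff, ← hgen]
    unfold coords
    rw [IntermediateField.adjoin_le_iff]
    rintro _ ⟨i, j, hj, rfl⟩
    have h2 : ∀ l, r l ∈ IntermediateField.adjoin ℂ (Set.range r) := fun l =>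
      IntermediateField.subset_adjoin ℂ _ ⟨l, rfl⟩
    by_cases hi : z i = 0
    · rw [hi, zero_div]
      exact zero_mem _
    · have h3 := div_mem (h2 i) (h2 j)
      have h4 : r i / r j = z i / z j := by
        rw [hr i hi, hr j hj]
        field_simp
      rwa [h4] at h3
  exact torus_upper hy hn hΔ hLC hr0 hrδ htop (jj := jj)
    (fun q => by
      simp only [β, if_pos (hjj q)]
      exact fun h1 => hb1 q ((hb' q _ (hjj q)).1 h1))
    (fun q l hl => by
      simp only [β, if_pos (hjj l)]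
      exact (hb' q _ (hjj l)).2 (hb2 q l hl))
    (fun Q hQ => by
      rcases hcan Q hQ with h1 | ⟨j, l, hj, hl, hne⟩ | h1
      · exact Or.inl h1
      · right; left
        by_contra hcon
        push Not at hcon
        apply hne
        have h2 := hcon j
        have h3 := hcon l
        rw [hr j hj, Q.ord_div hj hi0] at h2
        rw [hr l hl, Q.ord_div hl hi0] at h3
        omega
      · exact Or.inr (Or.inr fun q => hlog q Q (h1 q))) hh
end

section

variable {n : ℕ} {ι : Type} {K : Type} [Field K] [Algebra ℂ K] {N w : ℕ} {y : Fin (N + 1) → K}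
  {z : Fin (n + 1) → K}

/-- **The Campana-Peternell inequality.** -/
theorem nested_cp {U : Set (Fin (n + 1))} {F : ι → MvPolynomial (Fin (n + 1)) ℂ}
    {s H M : ℕ} (hF : ∀ e, IsForm (F e) ∧ NestedIn IsMono s M H (F e))
    (hM : (2 * n + 2) * ((H + 1) * (2 * s + 1) ^ 5) ≤ M)
    (hz : SubVarU U F K w z) (hcomp : IsComponentU U F z)
    (hy : NormalModel y) {Δ : Place ℂ K → ℚ} (hΔ : Effective y Δ) (hLC : LogCanonical y w Δ)
    (hone : ∀ P, IsPrimeDivisor y P → OffU U z P → 1 ≤ Δ P)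
    (hklt : ∀ Q, Divisorial w Q → ¬ OffU U z Q → ∃ α > 0, LogDisc y w Δ Q α)
    (hcan : ∀ Q, Divisorial w Q → LogDisc y w Δ Q 1 ∨ OverCoord z Q ∨
      ∀ b, Acts U ℂ z b → Tangent z b Q) {D : Place ℂ K → ℚ} (hD : Effective y D)
    (hps : PsefSub y w Δ D) :
    (¬ ∃ b, Contracts U ℂ z b) ∧
      ∀ j : ℕ, IitakaGe y D j → (j : WithBot ℕ) ≤ kodairaDim y w Δ := by
  have hex : ¬ ∃ b, Contracts U ℂ z b := by
    rintro ⟨b, hb⟩
    obtain ⟨i, hi, hbi⟩ := hb.fixed
    obtain ⟨i', hi', hbi'⟩ := hb.moved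
    have hH : ∀ G : MvPolynomial (Fin (n + 1)) ℂ, IsForm G → val z G = 0 →
      ∀ v, val z (wc (fun j => (b j : ℤ)) v G) = 0 :=
      fun G hG h3 v => hom_of_contracts hz.unit hb G hG h3 v
    obtain ⟨H0, hH0, m1, hm1, hω⟩ := hps
    obtain ⟨M0, hM0⟩ := acts_vanish (U := U) (b := fun j => (b j : ℤ)) hy hz.dim hLC hz.unit
        hz.gen hi hi' (by
          simp only [hbi]
          intro h3
          exact hbi' (by exact_mod_cast h3.symm)) (fun j hj l _ => by
          simp only [hb.zero j hj]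
          positivity) hH
        (fun Q hQ => (hcan Q hQ).imp_right fun h => h.imp_right fun h =>
          h _ (acts_of_hom hH)) hklt hH0
    obtain ⟨ω, hω0, hωs⟩ := hω (M0 + 1) (by omega)
    have h1 : M0 ≤ (M0 + 1) * m1 := by nlinarith
    refine hω0 (hM0 _ h1 ω ⟨hωs.1, fun P hP => (hωs.2 P hP).mono ?_⟩)
    have h3 := hD.1 P hP
    have h4 : (0 : ℚ) ≤ (((M0 + 1) * m1 : ℕ) : ℚ) * D P := mul_nonneg (Nat.cast_nonneg _) h3
    rw [Pi.add_apply, Pi.add_apply, Pi.smul_apply, Pi.smul_apply, Pi.sub_apply, nsmul_eq_mul,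
      nsmul_eq_mul, mul_sub]
    linarith
  refine ⟨hex, fun j hj => ?_⟩
  rcases nested_kod hF (bndK_le hM) hz hcomp with h0 | ⟨h, p, b, e1, e2, e3, e4, e5,
    i0, jj, hi0, hjj, hb1, hb2⟩
  · exact absurd h0 hex
  · obtain ⟨h6, -⟩ := torus_pair hy hz.dim hΔ hLC hz.gen hi0 hjj hb1 hb2 e5 hone
      (fun Q hQ => (hcan Q hQ).imp_right fun h => h.imp_right fun h l => h _ (e2 l)) e1 e4
    obtain ⟨E, hE, hup⟩ := torus_up hy hz.dim hΔ hLC hz.gen hi0 hjj hb1 hb2 e5
      (fun Q hQ => (hcan Q hQ).imp_right fun h => h.imp_right fun h l => h _ (e2 l)) e1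
    obtain ⟨H0, hH0, m1, hm1, hω⟩ := hps
    obtain ⟨C, hC⟩ := hup H0 hH0
    rw [h6]
    exact_mod_cast cp_bound hE hC hm1 hω hj

end

end Pool.Agent.Run7.h546.NL
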