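import Pool.Agent.TH710.ND.Gate
import Pool.Agent.TH710.ND.Dich

/-!
Nested sums of high powers vanish under all specialisations which respect the links between the
leaves. (The proof is that of `Pool.Agent.TH710.ND.gate_rel`, where the links are replaced by the
membership of the ratios in a field.)
-/

set_option autoImplicit false

open FF MvPolynomial Pool.Agent.W603.LV Pool.Agent.W602.GT Pool.Agent.TH710.ND

namespace Pool.Agent.Run7.h546.NL

variable {k K : Type} [Field k] [Field K] [Algebra k K] {σ : Type}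
  {Bd : Place k K → Prop} {N s c : ℕ} {o : Place k K → ℤ}
  {Lf : MvPolynomial σ k → Prop} {y : σ → K}
  {M : Type} [CommRing M] [Algebra k M] [Algebra K M] [IsScalarTower k K M]

/-- what is needed on the leaves -/
structure EnvL (Bd : Place k K → Prop) (N s c : ℕ) (o : Place k K → ℤ)
    (Lf : MvPolynomial σ k → Prop) (y : σ → K) (x : σ → M) : Prop where
  z : ∀ p, Lf p → aeval y p = 0 → aeval x p = 0
  p : ∀ (c' : ℕ) (A : CFam k K), Gen Bd N s c o Lf y c' A → ∀ p q, Lf p → Lf q →
    aeval y p ≠ 0 → aeval y q ≠ 0 → Lk Bd A (aeval y p) (aeval y q) →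
      aeval x p * algebraMap K M (aeval y q) = algebraMap K M (aeval y p) * aeval x q

/-- **Gates.** -/
theorem gate_relL {x : σ → M} (hE : EnvL Bd N s c o Lf y x) (L : List (ℕ × ℕ)) : Big N s L →
    (L.length * (s * s) ≤ c → ∀ p, GateL Lf L p → aeval y p = 0 → aeval x p = 0) ∧
    (∀ (c' : ℕ) (A : CFam k K), Gen Bd N s c o Lf y c' A → c' + L.length * (s * s) ≤ c →
      ∀ p q, GateL Lf L p → GateL Lf L q → aeval y p ≠ 0 → aeval y q ≠ 0 →
        Lk Bd A (aeval y p) (aeval y q) →
        aeval x p * algebraMap K M (aeval y q) = algebraMap K M (aeval y p) * aeval x q) := by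
  induction L with
  | nil =>
    intro _
    exact ⟨fun _ p hp => hE.z p hp, fun c' A hA _ p q hp hq h1 h2 h3 =>
      hE.p c' A hA p q hp hq h1 h2 h3⟩
  | cons ke L ih =>
    intro hL
    obtain ⟨hks, hN, he0⟩ := hL.head
    obtain ⟨ihz, ihp⟩ := ih hL.tail
    constructor
    · rintro hc p ⟨a, g, hg, rfl⟩ h
      rw [List.length_cons] at hc
      have hc1 : 0 + s * s + L.length * (s * s) ≤ c := by nlinarith
      have hc2 : L.length * (s * s) ≤ c := by nlinarith
      rw [aeval_sum_pow] at h ⊢
      have h1 := pow_terms (o := o) (Gen.empty (Lf := Lf)) hL.tail hN he0 hc1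
        (fun i => algebraMap k K (a i)) g x h
        (by rw [Fintype.card_fin]; omega) (fun j => Term.gate _ _ (hg j))
        (fun j hj => ⟨fun P _ _ => ord_alg P hj, fun W _ _ => W.algebraMap_mem _⟩)
        (fun j hj => ihz hc2 (g j) (hg j) hj)
        (fun B hB i j hi hj hl => ihp _ B hB (by nlinarith) (g i) (g j) (hg i) (hg j) hi hj hl)
      simp only [← IsScalarTower.algebraMap_apply] at h1
      exact h1
    · rintro c' A hA hc p q hp hq hp0 hq0 hl
      obtain ⟨a, g, hg, hpe⟩ := hp
      obtain ⟨b, g', hg', hqe⟩ := hq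
      rw [List.length_cons] at hc
      have hc1 : c' + s * s + L.length * (s * s) ≤ c := by nlinarith
      have hc2 : L.length * (s * s) ≤ c := by nlinarith
      set lam : K := aeval y p / aeval y q with hlam
      have hlam0 : lam ≠ 0 := div_ne_zero hp0 hq0
      let G : Fin ke.1 ⊕ Fin ke.1 → MvPolynomial σ k := Sum.elim g g'
      have hG : ∀ i, GateL Lf L (G i) := by
        rintro (i | i)
        · exact hg i
        · exact hg' i
      let κ : Fin ke.1 ⊕ Fin ke.1 → K :=
        Sum.elim (fun i => algebraMap k K (a i)) (fun i => -lam * algebraMap k K (b i))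
      have hval : ∑ i, κ i * aeval y (G i) ^ ke.2 = aeval y p - lam * aeval y q := by
        rw [hpe, hqe, aeval_sum_pow, aeval_sum_pow, Fintype.sum_sum_type, Finset.mul_sum,
          sub_eq_add_neg, ← Finset.sum_neg_distrib]
        congr 1
        exact Finset.sum_congr rfl fun i _ => by
          simp only [κ, G, Sum.elim_inr]; ring
      have hval' : ∑ i, algebraMap K M (κ i) * aeval x (G i) ^ ke.2 =
          aeval x p - algebraMap K M lam * aeval x q := by
        rw [hpe, hqe, aeval_sum_pow, aeval_sum_pow, Fintype.sum_sum_type, Finset.mul_sum,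
          sub_eq_add_neg, ← Finset.sum_neg_distrib]
        congr 1
        · exact Finset.sum_congr rfl fun i _ => by
            simp only [κ, G, Sum.elim_inl]
            rw [← IsScalarTower.algebraMap_apply]
        · exact Finset.sum_congr rfl fun i _ => by
            simp only [κ, G, Sum.elim_inr]
            rw [map_mul, map_neg, ← IsScalarTower.algebraMap_apply]
            ring
      have h1 := pow_terms hA hL.tail hN he0 hc1 κ G x
        (by rw [hval, hlam, div_mul_cancel₀ _ hq0, sub_self])
        (by rw [Fintype.card_sum, Fintype.card_fin]; omega)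
        (by
          rintro (i | i)
          · exact Term.gate _ _ (hg i)
          · exact Term.ratio ke.1 p q hks ⟨a, g, hg, hpe⟩ ⟨b, g', hg', hqe⟩ hp0 hq0 hl _ _ (hg' i))
        (by
          rintro (i | i) hi
          · exact ⟨fun P _ _ => ord_alg P hi, fun W _ _ => W.algebraMap_mem _⟩
          · change -lam * algebraMap k K (b i) ≠ 0 at hi
            have hb' : algebraMap k K (b i) ≠ 0 := right_ne_zero_of_mul hi
            refine ⟨fun P hP hPA => ?_, fun W hR hAW => ?_⟩
            · change P.ord (-lam * algebraMap k K (b i)) = 0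
              have hlo : P.ord lam = 0 := by
                rw [hlam, P.ord_div hp0 hq0, hl.1 P hP hPA, sub_self]
              rw [P.ord_mul (neg_ne_zero.2 hlam0) hb', P.ord_neg, hlo, ord_alg P hb', add_zero]
            · exact mul_mem (neg_mem (hl.2 W hR hAW)) (W.algebraMap_mem _))
        (fun j hj => ihz hc2 (G j) (hG j) hj)
        (fun B hB i j hi hj hl' => ihp _ B hB (by nlinarith) (G i) (G j) (hG i) (hG j) hi hj hl')
      rw [hval', sub_eq_zero, hlam] at h1
      rw [h1, mul_right_comm, ← map_mul, div_mul_cancel₀ _ hq0]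

/-- **Nested sums.** -/
theorem nested_zero {F : MvPolynomial σ k} {h : ℕ} (hF : NestedIn Lf s N h F) (hN1 : 1 ≤ N)
    {x : σ → M} (hE : EnvL Bd N (2 * s) ((h + 1) * (2 * s * (2 * s))) (fun _ => 0) Lf y x)
    (hmem : aeval y F = 0) : aeval x F = 0 := by
  obtain ⟨r, e, L, c, g, hr, he, hL1, hL2, hg, hFe⟩ := hF
  have hbig : Big N (2 * s) L := by
    intro ke hke
    obtain ⟨h1, h2, h3⟩ := hL2 ke hke
    exact ⟨by omega, h3, by omega⟩
  have hlen : 0 + 2 * s * (2 * s) + L.length * (2 * s * (2 * s)) ≤
      (h + 1) * (2 * s * (2 * s)) := by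
    nlinarith [Nat.mul_le_mul_right (2 * s * (2 * s)) hL1]
  have hlen' : L.length * (2 * s * (2 * s)) ≤ (h + 1) * (2 * s * (2 * s)) :=
    Nat.mul_le_mul_right _ (by omega)
  obtain ⟨ihz, ihp⟩ := gate_relL hE L hbig
  have h4 := pow_terms (o := fun _ => 0) (Bd := Bd) (N := N) (Gen.empty (Lf := Lf)) hbig
    he (by omega) hlen
    (fun i => algebraMap k K (c i)) g x (by
      rw [hFe, aeval_sum_pow] at hmem
      exact hmem) (by rw [Fintype.card_fin]; omega) (fun j => Term.gate _ _ (hg j))
    (fun j hj => ⟨fun P _ _ => ord_alg P hj, fun W _ _ => W.algebraMap_mem _⟩)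
    (fun j hj => ihz hlen' (g j) (hg j) hj)
    (fun B hB i j hi hj hl => ihp _ B hB hlen (g i) (g j) (hg i) (hg j) hi hj hl)
  simp only [← IsScalarTower.algebraMap_apply] at h4
  rw [hFe, aeval_sum_pow]
  exact h4

end Pool.Agent.Run7.h546.NL
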