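import Pool.Agent.TH710.ND.Kod

/-!
Sections of the log canonical bundle from families of circuits and functions which are units where
finitely many of the families are constant. (The proof is that of `Pool.Agent.TH710.ND.kod_fam`,
where the functions are units everywhere outside the boundary.)
-/

set_option autoImplicit false

open FF IntermediateField Pool.Agent.W603.LV Pool.Agent.W602.GT Pool.Agent.W603.GX
  Pool.Agent.W603.GY Pool.Agent.TH710.ND

namespace Pool.Agent.Run7.h546.NL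

variable {k K : Type} [Field k] [Field K] [Algebra k K]

/-- **Sections.** -/
theorem kod_fam2 [IsAlgClosed k] [CharZero k] {w : ℕ} (htr : Algebra.trdeg k K = w)
    (G : CFam k K → Prop) {Bd : Place k K → Prop} {N s c : ℕ} (hG : ∀ A, G A → A.Ok Bd N s c)
    {r : ℕ} (B : Fin r → CFam k K) (hB : ∀ i, G (B i))
    (hN : (w + r) * (c * ((s + 1) * tn (s - 1))) + 1 ≤ N)
    (Su : Set K) (hSu : ∀ u ∈ Su, u ≠ 0)
    (hunit : ∀ P : Place k K, ¬ Bd P → (∀ i, (B i).Const P) → ∀ u ∈ Su, P.ord u = 0)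
    (hker : ∀ D : Derivation k K K, (∀ A, G A → ∀ i a b, D (A.T i a / A.T i b) = 0) →
      (∀ u ∈ Su, D u = 0) → D = 0) :
    ∃ (h p : ℕ) (t : Fin h → K) (u : Fin p → K), h + p = w ∧
      IsTranscendenceBasis k (Sum.elim t u) ∧ (∀ i, u i ∈ Su) ∧
      (∀ D : Derivation k K K, (∀ i, D (t i) = 0) →
        ∀ A, G A → ∀ i a b, D (A.T i a / A.T i b) = 0) ∧
      KodGe k K w Bd h := by
  classical
  let S1 : Set K := {x | ∃ A : CFam k K, G A ∧ ∃ i a b, x = A.T i a / A.T i b}
  have hS1 : ∀ D : Derivation k K K, (∀ z ∈ S1, D z = 0) →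
      ∀ A, G A → ∀ i a b, D (A.T i a / A.T i b) = 0 :=
    fun D hD A hA i a b => hD _ ⟨A, hA, i, a, b, rfl⟩
  obtain ⟨h, p, t, u, rfl, ht, hu, hbasis, hkill⟩ := basis_pick htr S1 (S1 ∪ Su)
    (alg_of_ker htr _ fun D hD => hker D (hS1 D fun z hz => hD z (Or.inl hz))
      fun z hz => hD z (Or.inr hz))
  have huS : ∀ l, u l ∈ Su := by
    intro l
    rcases hu l with h1 | h1
    · exfalso
      obtain ⟨D, hD⟩ := exists_der (Sum.elim t u) hbasis (Sum.elim (fun _ => 0) (fun _ => 1))
      have h2 := hkill D (fun i => hD (Sum.inl i)) _ h1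
      have h3 := hD (Sum.inr l)
      simp only [Sum.elim_inr] at h3
      rw [h2] at h3
      exact zero_ne_one h3
    · exact h1
  choose A hA i a b hab using ht
  let F : CFam k K := CFam.sigma (Sum.elim A B)
  have hF : F.Ok Bd N s (∑ _j : Fin h ⊕ Fin r, c) := CFam.sigma_ok fun j => by
    rcases j with j | j
    · exact hG _ (hA j)
    · exact hG _ (hB j)
  let _ : Fintype F.I := F.fin
  let y0 : F.I → K := fun x => match x with
    | ⟨Sum.inl j, z⟩ => if z = i j then (A j).T (i j) (b j) else (A j).T z 0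
    | ⟨Sum.inr j, z⟩ => (B j).T z 0
  let y1 : Fin h → F.I → K := fun q x => match x with
    | ⟨Sum.inl j, z⟩ => if j = q ∧ z = i j then (A j).T (i j) (a j) else y0 ⟨Sum.inl j, z⟩
    | ⟨Sum.inr j, z⟩ => y0 ⟨Sum.inr j, z⟩
  have hy0 : ∀ x, ∃ j, y0 x = F.T x j := by
    rintro ⟨j | j, x⟩
    · by_cases hx : x = i j
      · subst hx
        refine ⟨b j, ?_⟩
        simp only [y0, if_true]
        rfl
      · exact ⟨0, by simp only [y0]; rw [if_neg hx]; rfl⟩
    · exact ⟨0, rfl⟩
  have hy1 : ∀ q x, ∃ j, y1 q x = F.T x j := by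
    rintro q ⟨j | j, x⟩
    · by_cases hx : j = q ∧ x = i j
      · obtain ⟨rfl, rfl⟩ := hx
        refine ⟨a j, ?_⟩
        simp only [y1, and_self, if_true]
        rfl
      · obtain ⟨l, hl⟩ := hy0 ⟨Sum.inl j, x⟩
        refine ⟨l, ?_⟩
        rw [← hl]
        simp only [y1]
        rw [if_neg hx]
    · obtain ⟨l, hl⟩ := hy0 ⟨Sum.inr j, x⟩
      exact ⟨l, by rw [← hl]⟩
  have hy0n : ∀ x, y0 x ≠ 0 := fun x => by
    obtain ⟨j, hj⟩ := hy0 x
    rw [hj]
    exact F.ne x j
  have hwt : wtI F.m + 1 ≤ N := by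
    refine le_trans (Nat.succ_le_succ ?_) hN
    unfold wtI
    calc ∑ x, (F.m x + 2) * tn (F.m x) ≤ ∑ _x : F.I, (s + 1) * tn (s - 1) := by
          refine Finset.sum_le_sum fun x _ => ?_
          have h3 := hF.sz x
          exact Nat.mul_le_mul (by omega) (tn_mono (by omega))
      _ = Fintype.card F.I * ((s + 1) * tn (s - 1)) := by simp
      _ ≤ ((h + r) * c) * ((s + 1) * tn (s - 1)) := by
          refine Nat.mul_le_mul_right _ ?_
          have h3 := hF.card
          simpa using h3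
      _ ≤ ((h + p + r) * c) * ((s + 1) * tn (s - 1)) :=
          Nat.mul_le_mul_right _ (Nat.mul_le_mul_right _ (by omega))
      _ = (h + p + r) * (c * ((s + 1) * tn (s - 1))) := by ring
  let x : Fin (h + p) → K := Sum.elim t u ∘ finSumFinEquiv.symm
  have hx : IsTranscendenceBasis k x := hbasis.comp_equiv finSumFinEquiv.symm
  have hx0 : ∀ q, x q ≠ 0 := by
    intro q
    simp only [x, Function.comp_apply]
    rcases finSumFinEquiv.symm q with l | l
    · simp only [Sum.elim_inl]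
      rw [hab]
      exact div_ne_zero ((A l).ne _ _) ((A l).ne _ _)
    · exact hSu _ (huS l)
  have hunitx : ∀ P : Place k K, ¬ Bd P → F.Const P → ∀ q, P.ord (x q) = 0 := by
    intro P hPU hall q
    simp only [x, Function.comp_apply]
    rcases finSumFinEquiv.symm q with l | l
    · simp only [Sum.elim_inl]
      have h0 : P.ord ((A l).T (i l) (a l)) = P.ord ((A l).T (i l) (b l)) :=
        CFam.sigma_const.1 hall (Sum.inl l) (i l) (a l) (b l)
      rw [hab, P.ord_div ((A l).ne _ _) ((A l).ne _ _), h0, sub_self]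
    · exact hunit P hPU (fun j => CFam.sigma_const.1 hall (Sum.inr j)) _ (huS l)
  have hprod : ∀ q : Fin h, ∏ z, y1 q z = (∏ z, y0 z) * t q := by
    intro q
    let z1 : F.I := ⟨Sum.inl q, i q⟩
    have hz : y1 q z1 = (A q).T (i q) (a q) := by simp [y1, z1]
    have hz0 : y0 z1 = (A q).T (i q) (b q) := by simp [y0, z1]
    have h5 := (A q).ne (i q) (b q)
    have e1 := Finset.mul_prod_erase (Finset.univ : Finset F.I) (y1 q) (Finset.mem_univ z1)
    have e2 := Finset.mul_prod_erase (Finset.univ : Finset F.I) y0 (Finset.mem_univ z1)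
    have h4 : ∏ z ∈ (Finset.univ : Finset F.I).erase z1, y1 q z =
        ∏ z ∈ (Finset.univ : Finset F.I).erase z1, y0 z := by
      refine Finset.prod_congr rfl fun z hz => ?_
      have hne := Finset.ne_of_mem_erase hz
      obtain ⟨j | j, z⟩ := z
      · simp only [y1]
        rw [if_neg]
        rintro ⟨rfl, rfl⟩
        exact hne rfl
      · rfl
    rw [← e1, ← e2, hz, hz0, hab q, h4]
    field_simp
  have hpr0 : ∏ z, y0 z ≠ 0 := Finset.prod_ne_zero_iff.2 fun z _ => hy0n z
  obtain ⟨D, hD⟩ := exists_dual hx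
  have hf : ∀ N c, form x N c D = c := fun N c => by
    unfold form
    rw [hD, Matrix.det_one, one_pow, mul_one]
  obtain ⟨Gf, hG0, hGc, hP⟩ := coreU F.T F.ne F.sum F.lin x hx0 hx
  have hdich : ∀ P : Place k K, ¬ Bd P → F.Const P ∨
      ∃ i j l, ((wtI F.m + 1 : ℕ) : ℤ) ≤ |P.ord (F.T i j) - P.ord (F.T i l)| := by
    intro P hP
    rcases hF.dich P hP with h1 | ⟨i, j, l, h1⟩
    · exact Or.inl h1
    · exact Or.inr ⟨i, j, l, le_trans (by exact_mod_cast hwt) h1⟩
  -- the sections
  have hsect : ∀ v : F.I → K, (∀ i, ∃ j, v i = F.T i j) →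
        LogSec k K (h + p) (wtI F.m + 1) Bd (form x (wtI F.m + 1) (1 * Gf v)) := by
    intro v hv
    refine ⟨form_pluri _ _ _, fun P _ => (hP x 1 hx0 (fun D => by rw [one_mul]) P v hv).1,
      fun P _ hPU => (hP x 1 hx0 (fun D => by rw [one_mul]) P v hv).2 ?_⟩
    rcases hdich P hPU with h4 | h4
    · exact Or.inl ⟨h4, hunitx P hPU h4, hunitx P hPU h4⟩
    · exact Or.inr h4
  let Γ : Fin (h + 1) → K := Fin.cases (1 * Gf y0) fun q => 1 * Gf (y1 q)
  refine ⟨h, p, t, u, rfl, hbasis, huS, fun D hD => hS1 D (hkill D hD),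
    wtI F.m + 1, Nat.succ_pos _, fun j => form x (wtI F.m + 1) (Γ j), fun j => ?_, D, ?_, ?_⟩
  · refine Fin.cases ?_ (fun q => ?_) j
    · exact hsect y0 hy0
    · exact hsect (y1 q) (hy1 q)
  · change form x (wtI F.m + 1) (1 * Gf y0) D ≠ 0
    rw [hf, one_mul]
    exact hG0 _ hy0
  · have h1 : ∀ q : Fin h, Γ q.succ / Γ 0 = t q := by
      intro q
      change (1 * Gf (y1 q)) / (1 * Gf y0) = t q
      have h2 := hGc (y1 q) y0
      rw [hprod q] at h2
      rw [one_mul, one_mul, div_eq_iff (hG0 y0 hy0)]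
      apply mul_right_cancel₀ hpr0
      rw [h2]
      ring
    simp only [hf, h1]
    exact hbasis.1.comp Sum.inl Sum.inl_injective

end Pool.Agent.Run7.h546.NL
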