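import Pool.Agent.Run7.h546.NL.Gate
import Pool.Agent.Run7.h546.NL.KodFam
import Pool.Agent.W602.GT.KMain

/-!
The logarithmic Kodaira dimension of quasi-projective varieties given by nested sums of high powers
of monomials.
-/

set_option autoImplicit false
set_option linter.unusedSectionVars false

open FF MvPolynomial Pool.Agent.W603.LV Pool.Agent.W602.GT Pool.Agent.TH710.ND

namespace Pool.Agent.Run7.h546.NL

/-- a basis of the span of vectors -/
theorem span_pick' {m : ℕ} {I : Type} (v : I → Fin m → ℤ) :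
    ∃ (r : ℕ) (φ : Fin r → I), r ≤ m ∧ ∀ b : Fin m → ℤ,
      (∀ i, ∑ l, v (φ i) l * b l = 0) → ∀ i, ∑ l, v i l * b l = 0 := by
  classical
  let S : Set (Fin m → ℚ) := Set.range fun i l => (v i l : ℚ)
  obtain ⟨B, hBS, hspan, hlin⟩ := exists_linearIndependent ℚ S
  have hfin : Finite B := hlin.finite
  have : Fintype B := Fintype.ofFinite B
  obtain ⟨r, ⟨ψ⟩⟩ := Finite.exists_equiv_fin B
  have hB : ∀ x : B, ∃ i, (fun l => (v i l : ℚ)) = x := fun x => hBS x.2
  choose f hf using hB
  refine ⟨r, fun i => f (ψ.symm i), ?_, ?_⟩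
  · have h1 := hlin.fintype_card_le_finrank
    rw [Fintype.card_congr ψ, Fintype.card_fin, Module.finrank_fin_fun] at h1
    exact h1
  · intro b hb i
    let L : (Fin m → ℚ) →ₗ[ℚ] ℚ := ∑ l, (b l : ℚ) • LinearMap.proj l
    have hL : ∀ x, L x = ∑ l, x l * b l := by
      intro x
      simp [L, mul_comm]
    have h1 : Submodule.span ℚ B ≤ LinearMap.ker L := by
      rw [Submodule.span_le]
      intro x hx
      change L x = 0
      have h2 : ∑ l, v (f (ψ.symm (ψ ⟨x, hx⟩))) l * b l = 0 := hb (ψ ⟨x, hx⟩)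
      rw [Equiv.symm_apply_apply] at h2
      have h3 := hf ⟨x, hx⟩
      change (fun l => (v (f ⟨x, hx⟩) l : ℚ)) = x at h3
      rw [hL, ← h3]
      beta_reduce
      exact_mod_cast h2
    have h2 : (fun l => (v i l : ℚ)) ∈ Submodule.span ℚ B := by
      rw [hspan]
      exact Submodule.subset_span ⟨i, rfl⟩
    have h3 := h1 h2
    change L _ = 0 at h3
    rw [hL] at h3
    exact_mod_cast h3

variable {k : Type} [Field k] {n : ℕ} {ι : Type} {K : Type} [Field K] [Algebra k K]

/-- the order of a monomial -/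
theorem ord_mon (P : Place k K) (y : Fin (n + 1) → K) (α : Fin (n + 1) →₀ ℕ)
    (h : ∏ j, y j ^ α j ≠ 0) : P.ord (∏ j, y j ^ α j) = ∑ j, (α j : ℤ) * P.ord (y j) := by
  classical
  have h0 : ∀ j, y j ^ α j ≠ 0 := fun j => Finset.prod_ne_zero_iff.1 h j (Finset.mem_univ j)
  have h1 : ∀ S : Finset (Fin (n + 1)),
      P.ord (∏ j ∈ S, y j ^ α j) = ∑ j ∈ S, (α j : ℤ) * P.ord (y j) := by
    intro S
    induction S using Finset.induction_on with
    | empty => simpa using P.ord_const (c := (1 : k)) one_ne_zero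
    | insert a S ha ih =>
      rw [Finset.prod_insert ha, Finset.sum_insert ha,
        P.ord_mul (h0 a) (Finset.prod_ne_zero_iff.2 fun j _ => h0 j), ih, P.ord_pow]
  exact h1 _

/-- the vectors of exponents of the ratios of linked monomials -/
def Links (Bd : Place k K → Prop) (N s c : ℕ) (y : Fin (n + 1) → K) : Set (Fin (n + 1) → ℤ) :=
  {v | ∃ (c' : ℕ) (A : CFam k K) (α β : Fin (n + 1) →₀ ℕ),
    Gen Bd N s c (fun _ => 0) IsMono y c' A ∧ ∏ j, y j ^ α j ≠ 0 ∧ ∏ j, y j ^ β j ≠ 0 ∧
      (∀ P, ¬ Bd P → A.Const P → P.ord (∏ j, y j ^ α j) = P.ord (∏ j, y j ^ β j)) ∧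
      (∀ W : IntermediateField k K, Root W → A.In W →
        (∏ j, y j ^ α j) / (∏ j, y j ^ β j) ∈ W) ∧
      v = fun j => (α j : ℤ) - (β j : ℤ)}

/-- **Orbits.** -/
theorem orbit_zero {F : MvPolynomial (Fin (n + 1)) k} {Bd : Place k K → Prop} {N s h : ℕ}
    (hF : NestedIn IsMono s N h F) (hN1 : 1 ≤ N) {y : Fin (n + 1) → K} (hmem : val y F = 0)
    {b : Fin (n + 1) → ℤ}
    (hb : ∀ v ∈ Links Bd N (2 * s) ((h + 1) * (2 * s * (2 * s))) y, ∑ j, v j * b j = 0)
    {t : K} (ht : t ≠ 0) : val (fun j => t ^ b j * y j) F = 0 := by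
  refine nested_zero (M := K) (Bd := Bd) hF hN1 (x := fun j => t ^ b j * y j) ⟨?_, ?_⟩ hmem
  · rintro p ⟨α, a, rfl⟩ h
    rw [aeval_mono] at h ⊢
    rw [torus_mono y b ht, mul_left_comm, h, mul_zero]
  · rintro c' A hA p q ⟨α, a, rfl⟩ ⟨β, c, rfl⟩ hp hq hl
    rw [aeval_mono] at hp hq
    rw [aeval_mono, aeval_mono] at hl
    have ha := left_ne_zero_of_mul hp
    have hc := left_ne_zero_of_mul hq
    have hα := right_ne_zero_of_mul hp
    have hβ := right_ne_zero_of_mul hq
    have h1 := hb (fun j => (α j : ℤ) - (β j : ℤ)) ⟨c', A, α, β, hA, hα, hβ, fun P hP hPA => ?_,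
      fun W hW hAW => ?_, rfl⟩
    · simp only [sub_mul, Finset.sum_sub_distrib] at h1
      rw [aeval_mono, aeval_mono, aeval_mono, aeval_mono, torus_mono y b ht, torus_mono y b ht,
        sub_eq_zero.1 h1]
      change algebraMap k K a * (t ^ (∑ j, (β j : ℤ) * b j) * ∏ j, y j ^ α j) *
        (algebraMap k K c * ∏ j, y j ^ β j) = algebraMap k K a * (∏ j, y j ^ α j) *
        (algebraMap k K c * (t ^ (∑ j, (β j : ℤ) * b j) * ∏ j, y j ^ β j))
      ring
    · have h2 := hl.1 P hP hPA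
      rwa [P.ord_mul ha hα, P.ord_mul hc hβ, ord_alg P ha, ord_alg P hc, zero_add, zero_add] at h2
    · have h2 := hl.2 W hW hAW
      have h3 : (∏ j, y j ^ α j) / (∏ j, y j ^ β j) =
          (algebraMap k K a * ∏ j, y j ^ α j) / (algebraMap k K c * ∏ j, y j ^ β j) *
            (algebraMap k K c * (algebraMap k K a)⁻¹) := by
        field_simp
      rw [h3]
      exact mul_mem h2 (mul_mem (W.algebraMap_mem _) (inv_mem (W.algebraMap_mem _)))

/-- homogeneous parts from orbits over the function field -/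
theorem wc_of_orbitK [Infinite K] {y : Fin (n + 1) → K} {b : Fin (n + 1) → ℤ}
    {G : MvPolynomial (Fin (n + 1)) k}
    (h : ∀ t : K, t ≠ 0 → val (fun j => t ^ b j * y j) G = 0) (v : ℤ) :
    val y (wc b v G) = 0 := by
  obtain ⟨M, R, h1, -, h3⟩ := orbit_poly (k := k) y b G
  exact h3 (poly_zero fun t ht => by rw [h1 t ht, h t ht, mul_zero]) v

/-- the bound for the exponents -/
def bndK (n s h : ℕ) : ℕ :=
  (2 * n + 1) * ((h + 1) * (2 * s * (2 * s)) * ((2 * s + 1) * tn (2 * s - 1))) + 1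

/-- **The logarithmic Kodaira dimension.** A component of a quasi-projective variety given by nested
sums of high powers of monomials is covered by affine lines, or its logarithmic Kodaira dimension is
at least its dimension minus the dimension of a torus which acts on it. -/
theorem nested_kod [CharZero k] [IsAlgClosed k] {U : Set (Fin (n + 1))}
    {F : ι → MvPolynomial (Fin (n + 1)) k} {s N H : ℕ}
    (hF : ∀ e, IsForm (F e) ∧ NestedIn IsMono s N H (F e)) (hN : bndK n s H ≤ N) {w : ℕ}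
    {y : Fin (n + 1) → K} (hy : SubVarU U F K w y) (hcomp : IsComponentU U F y) :
    (∃ b, Contracts U k y b) ∨ ∃ (h p : ℕ) (b : Fin p → Fin (n + 1) → ℤ), h + p = w ∧
      (∀ l, Acts U k y (b l)) ∧
      (∀ c : Fin p → ℤ, (∀ j j', y j ≠ 0 → y j' ≠ 0 →
        ∑ l, c l * b l j = ∑ l, c l * b l j') → c = 0) ∧
      KodGe k K w (OffU U y) h ∧
      (∀ l, ∀ G : MvPolynomial (Fin (n + 1)) k, IsForm G → val y G = 0 →
        ∀ v, val y (wc (b l) v G) = 0) ∧
      ∃ (i0 : Fin (n + 1)) (jj : Fin p → Fin (n + 1)), y i0 ≠ 0 ∧ (∀ l, y (jj l) ≠ 0) ∧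
        (∀ l, b l (jj l) ≠ b l i0) ∧ ∀ l m, m ≠ l → b l (jj m) = b l i0 := by
  classical
  by_cases hcontr : ∃ b, Contracts U k y b
  · exact Or.inl hcontr
  right
  have hK : CharZero K := charZero_of_injective_algebraMap (algebraMap k K).injective
  have hinf : Infinite K := inferInstance
  have hN1 : 1 ≤ N := le_trans (by unfold bndK; omega) hN
  obtain ⟨i0, hi0⟩ := Function.ne_iff.1 hy.ne
  have hi0' : y i0 ≠ 0 := hi0
  have halg : Algebra.IsAlgebraic (coords k y) K := by
    rw [hy.gen]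
    infer_instance
  have hwn := dim_le hy.ne halg hy.dim
  set cc : ℕ := (H + 1) * (2 * s * (2 * s)) with hcc
  let G : CFam k K → Prop := fun A => ∃ c', Gen (OffU U y) N (2 * s) cc (fun _ => 0) IsMono y c' A
  have hGok : ∀ A, G A → A.Ok (OffU U y) N (2 * s) cc := by
    rintro A ⟨c', hA⟩
    exact hA.ok.1.mono hA.ok.2
  let V : Set (Fin (n + 1) → ℤ) := Links (k := k) (OffU U y) N (2 * s) cc y
  have hlinks : ∀ v : V, ∃ (c' : ℕ) (A : CFam k K) (α β : Fin (n + 1) →₀ ℕ),
      Gen (OffU U y) N (2 * s) cc (fun _ => 0) IsMono y c' A ∧ ∏ j, y j ^ α j ≠ 0 ∧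
        ∏ j, y j ^ β j ≠ 0 ∧
      (∀ P, ¬ (OffU U y) P → A.Const P → P.ord (∏ j, y j ^ α j) = P.ord (∏ j, y j ^ β j)) ∧
      (∀ W : IntermediateField k K, Root W → A.In W →
        (∏ j, y j ^ α j) / (∏ j, y j ^ β j) ∈ W) ∧
      v.1 = fun j => (α j : ℤ) - (β j : ℤ) := fun v => v.2
  choose c' A α β hA hα hβ hord hW hv using hlinks
  -- weights perpendicular to the links
  have horb : ∀ b : Fin (n + 1) → ℤ, (∀ v ∈ V, ∑ j, v j * b j = 0) → ∀ e (t : K), t ≠ 0 →
      val (fun j => t ^ b j * y j) (F e) = 0 := fun b hb e t ht =>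
    orbit_zero (Bd := OffU U y) (hF e).2 hN1 (hy.mem e) hb ht
  obtain ⟨r, φ, hr, hspan⟩ := span_pick' (fun v : V => v.1)
  -- the functions
  let Su : Set K := {z | ∃ j, y j ≠ 0 ∧ z = y j / y i0}
  have hSu : ∀ u ∈ Su, u ≠ 0 := by
    rintro u ⟨j, hj, rfl⟩
    exact div_ne_zero hj hi0'
  have hunit : ∀ P : Place k K, ¬ OffU U y P → (∀ i, (A (φ i)).Const P) →
      ∀ u ∈ Su, P.ord u = 0 := by
    rintro P hP hPA u ⟨j, hj, rfl⟩
    rw [P.ord_div hj hi0', sub_eq_zero]
    by_contra hne
    apply hcontr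
    -- the weights
    have hperp : ∀ v ∈ V, ∑ l, v l * P.ord (y l) = 0 := by
      intro v hv'
      refine hspan (fun l => P.ord (y l)) (fun i => ?_) ⟨v, hv'⟩
      have h1 := hord (φ i) P hP (hPA i)
      rw [ord_mon P y _ (hα _), ord_mon P y _ (hβ _)] at h1
      beta_reduce
      rw [hv (φ i)]
      simp only [sub_mul, Finset.sum_sub_distrib]
      rw [h1, sub_self]
    obtain ⟨j0, hj0, hmin⟩ := Finset.exists_min_image (Finset.univ.filter fun j => y j ≠ 0)
      (fun j => P.ord (y j)) ⟨j, by simpa using hj⟩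
    have hj0' : y j0 ≠ 0 := (Finset.mem_filter.1 hj0).2
    have hmin' : ∀ j, y j ≠ 0 → P.ord (y j0) ≤ P.ord (y j) := fun j hj =>
      hmin j (Finset.mem_filter.2 ⟨Finset.mem_univ _, hj⟩)
    set μ := P.ord (y j0) with hμ
    let b : Fin (n + 1) → ℕ := fun j => if y j = 0 then 0 else (P.ord (y j) - μ).toNat
    have hb : ∀ j, y j ≠ 0 → (b j : ℤ) = P.ord (y j) - μ := by
      intro j hj
      simp only [b, if_neg hj]
      exact Int.toNat_of_nonneg (sub_nonneg.2 (hmin' j hj))
    have hinfk : Infinite k := inferInstance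
    refine ⟨b, contracts_of_hom (fun l hl => ?_) ⟨j0, hj0', ?_⟩ ?_ ?_⟩
    · have h1 : P.ord (y l) ≤ μ := by
        unfold OffU at hP
        push Not at hP
        exact hP l hl j0 hj0'
      have h2 := hb l (hy.unit l hl)
      have h3 := hmin' l (hy.unit l hl)
      omega
    · have h2 := hb j0 hj0'
      omega
    · by_contra hcon
      push Not at hcon
      apply hne
      have h1 := hb j hj
      have h2 := hb i0 hi0'
      rw [hcon j hj] at h1
      rw [hcon i0 hi0'] at h2
      push_cast at h1 h2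
      omega
    · refine ideal_hom hy hcomp (fun e v => wc_of_orbitK (fun t ht => ?_) v)
      obtain ⟨d, hd⟩ := (hF e).1
      have h1 := horb _ hperp e t ht
      have h2 : (fun l => t ^ ((b l : ℕ) : ℤ) * y l) =
          fun l => t ^ (-μ) * (t ^ (P.ord (y l)) * y l) := by
        funext l
        by_cases hl : y l = 0
        · rw [hl, mul_zero, mul_zero, mul_zero]
        · rw [hb l hl, ← mul_assoc, ← zpow_add₀ ht]
          congr 2
          ring
      rw [h2, val_smul hd, h1, mul_zero]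
  have hker : ∀ D : Derivation k K K, (∀ A, G A → ∀ i a b, D (A.T i a / A.T i b) = 0) →
      (∀ u ∈ Su, D u = 0) → D = 0 := by
    intro D _ hD
    by_contra hD0
    obtain ⟨i, j, hij⟩ := moves halg hD0
    apply hij
    have h1 : ∀ l, D (y l) * y i0 = y l * D (y i0) := by
      intro l
      by_cases hl : y l = 0
      · rw [hl, map_zero, zero_mul, zero_mul]
      · have h2 := hD _ ⟨l, hl, rfl⟩
        rw [div_eq_mul_inv, D.leibniz, D.leibniz_inv] at h2
        simp only [smul_eq_mul] at h2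
        field_simp at h2
        linear_combination h2
    have h2 : y i0 * (y i * D (y j) - y j * D (y i)) = 0 := by
      linear_combination y i * h1 j - y j * h1 i
    exact (mul_eq_zero.1 h2).resolve_left hi0'
  have hNb : (w + r) * (cc * ((2 * s + 1) * tn (2 * s - 1))) + 1 ≤ N := by
    refine le_trans (Nat.succ_le_succ (Nat.mul_le_mul_right _ ?_)) hN
    omega
  obtain ⟨h, p, t, u, rfl, hbasis, huS, hkill, hkod⟩ := kod_fam2 hy.dim G hGok
    (fun i => A (φ i)) (fun i => ⟨_, hA (φ i)⟩) hNb Su hSu hunit hker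
  choose jj hjj hujj using huS
  have hu0 : ∀ l, u l ≠ 0 := fun l => by
    rw [hujj]
    exact div_ne_zero (hjj l) hi0'
  -- the torus
  have hder : ∀ q : Fin p, ∃ D : Derivation k K K, (∀ i, D (t i) = 0) ∧
      ∀ l, D (u l) = if l = q then u l else 0 := by
    intro q
    obtain ⟨D, hD⟩ := exists_der (Sum.elim t u) hbasis
      (Sum.elim (fun _ => 0) (fun l => if l = q then u l else 0))
    exact ⟨D, fun i => hD (Sum.inl i), fun l => hD (Sum.inr l)⟩
  have hweights : ∀ q : Fin p, ∃ b : Fin (n + 1) → ℤ, b (jj q) ≠ b i0 ∧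
      (∀ l, l ≠ q → b (jj l) = b i0) ∧ ∀ v ∈ V, ∑ l, v l * b l = 0 := by
    intro q
    obtain ⟨D, hDt, hDu⟩ := hder q
    have hlam : ∀ l, D (y (jj l)) / y (jj l) - D (y i0) / y i0 = if l = q then 1 else 0 := by
      intro l
      have h1 := hDu l
      rw [hujj l] at h1
      have h2 := hjj l
      have h3 : D (y (jj l) / y i0) = (y (jj l) / y i0) *
          (D (y (jj l)) / y (jj l) - D (y i0) / y i0) := by
        rw [div_eq_mul_inv, D.leibniz, D.leibniz_inv]
        simp only [smul_eq_mul]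
        field_simp
        ring
      rw [h3] at h1
      have h4 : y (jj l) / y i0 ≠ 0 := div_ne_zero h2 hi0'
      apply mul_left_cancel₀ h4
      rw [h1]
      split_ifs <;> ring
    obtain ⟨b, hb1, hb2⟩ := int_weights (fun j => D (y j) / y j) (i := jj q) (i' := i0) (by
      intro h0
      have h1 := hlam q
      rw [if_pos rfl] at h1
      rw [h0, sub_self] at h1
      exact zero_ne_one h1)
    refine ⟨b, hb1, fun l hl => ?_, ?_⟩
    · have h1 := hb2 (fun j => (if j = jj l then 1 else 0) - (if j = i0 then 1 else 0)) (by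
        have h2 := hlam l
        rw [if_neg hl] at h2
        simp only [Int.cast_sub, Int.cast_ite, Int.cast_one, Int.cast_zero, sub_mul, ite_mul,
          one_mul, zero_mul, Finset.sum_sub_distrib, Finset.sum_ite_eq', Finset.mem_univ, if_true]
        exact h2)
      simp only [sub_mul, ite_mul, one_mul, zero_mul, Finset.sum_sub_distrib, Finset.sum_ite_eq',
        Finset.mem_univ, if_true] at h1
      exact sub_eq_zero.1 h1
    · intro v hv'
      apply hb2
      have hroot : Root (consts D) := fun z d hd h => Pool.Agent.W603.GY.consts_root D z d hd h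
      have h1 : D ((∏ j, y j ^ α ⟨v, hv'⟩ j) / (∏ j, y j ^ β ⟨v, hv'⟩ j)) = 0 :=
        hW ⟨v, hv'⟩ (consts D) hroot fun i a b => hkill D hDt _ ⟨_, hA ⟨v, hv'⟩⟩ i a b
      have hp := hα ⟨v, hv'⟩
      have hq := hβ ⟨v, hv'⟩
      rw [D.leibniz_div] at h1
      rw [smul_eq_zero, or_iff_right (pow_ne_zero 2 (inv_ne_zero hq))] at h1
      simp only [smul_eq_mul] at h1
      have e1 : D (∏ j, y j ^ α ⟨v, hv'⟩ j) = (∏ j, y j ^ α ⟨v, hv'⟩ j) *
          ∑ j, (α ⟨v, hv'⟩ j : K) * (D (y j) / y j) := by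
        have := der_mon (k := k) D (y := y) (α := α ⟨v, hv'⟩) (c := 1) (by
          rw [map_one, one_mul]; exact hp)
        rw [map_one, one_mul] at this
        exact this
      have e2 : D (∏ j, y j ^ β ⟨v, hv'⟩ j) = (∏ j, y j ^ β ⟨v, hv'⟩ j) *
          ∑ j, (β ⟨v, hv'⟩ j : K) * (D (y j) / y j) := by
        have := der_mon (k := k) D (y := y) (α := β ⟨v, hv'⟩) (c := 1) (by
          rw [map_one, one_mul]; exact hq)
        rw [map_one, one_mul] at this
        exact this
      rw [e1, e2] at h1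
      have h4 : ∑ j, (α ⟨v, hv'⟩ j : K) * (D (y j) / y j) =
          ∑ j, (β ⟨v, hv'⟩ j : K) * (D (y j) / y j) := by
        apply mul_left_cancel₀ (mul_ne_zero hp hq)
        linear_combination h1
      have h5 := hv ⟨v, hv'⟩
      change v = _ at h5
      rw [h5]
      push_cast
      simp only [sub_mul, Finset.sum_sub_distrib]
      rw [h4, sub_self]
  choose b hb1 hb2 hb3 using hweights
  have hH : ∀ l, ∀ G : MvPolynomial (Fin (n + 1)) k, IsForm G → val y G = 0 →
      ∀ v, val y (wc (b l) v G) = 0 := fun l =>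
    ideal_hom hy hcomp (fun e v' => wc_of_orbitK (fun t ht => horb (b l) (hb3 l) e t ht) v')
  refine ⟨h, p, b, rfl, fun l => acts_of_hom (hH l), ?_, hkod, hH, i0, jj, hi0', hjj, hb1, hb2⟩
  intro c hc
  funext q
  have h1 := hc (jj q) i0 (hjj q) hi0'
  rw [← sub_eq_zero, ← Finset.sum_sub_distrib, Finset.sum_eq_single q] at h1
  · rw [← mul_sub] at h1
    exact (mul_eq_zero.1 h1).resolve_right (sub_ne_zero.2 (hb1 q))
  · intro l _ hl
    rw [hb2 l q hl.symm, sub_self]
  · intro h2
    exact absurd (Finset.mem_univ _) h2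

end Pool.Agent.Run7.h546.NL
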