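import Pool.Agent.Run7.h546.NL.Pair
import Pool.Agent.W602.GT.KPsefS
import Pool.Agent.Y216.SV.Afl

/-!
Affine lines in the quasi-projective varieties given by nested sums of high powers of monomials.
-/

set_option autoImplicit false
set_option linter.overlappingInstances false
set_option linter.unusedSectionVars false

open FF IntermediateField Pool.Agent.W603.LV Pool.Agent.W602.GT Pool.Agent.TH710.ND
  Pool.Agent.Y216.SV

namespace Pool.Agent.Run7.h546.NL

variable {k : Type} [Field k] {n w : ℕ} {ι : Type} {K : Type} [Field K] [Algebra k K]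

theorem transc_of_der [CharZero k] (δ : Derivation k K K) {σ : K} (hσ : δ σ ≠ 0)
    {C : IntermediateField k K} (hC : ∀ c ∈ C, δ c = 0) : Transcendental C σ := by
  intro halg
  have hchar : CharZero C := charZero_of_injective_algebraMap (algebraMap k C).injective
  let δ' : Derivation C K K := Derivation.mk'
    { toFun := δ
      map_add' := map_add δ
      map_smul' := fun c x => by
        rw [Algebra.smul_def, δ.leibniz, RingHom.id_apply, smul_eq_mul, smul_eq_mul]
        change (c : K) * δ x + x * δ (c : K) = (c : K) * δ x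
        rw [hC _ c.2, mul_zero, add_zero] }
    (fun x y => δ.leibniz x y)
  have hint : IsIntegral C σ := halg.isIntegral
  have h1 : δ' (Polynomial.aeval σ (minpoly C σ)) = 0 := by
    rw [minpoly.aeval, map_zero]
  rw [Derivation.map_aeval] at h1
  have h2 : Polynomial.aeval σ (Polynomial.derivative (minpoly C σ)) ≠ 0 :=
    (minpoly.irreducible hint).separable.aeval_derivative_ne_zero (minpoly.aeval _ _)
  rw [smul_eq_mul] at h1
  exact hσ ((mul_eq_zero.mp h1).resolve_left h2)

/-- The affine lines given by a contraction: a family with a base of dimension `w - 1`. -/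
theorem slice_of_contracts [CharZero k] [IsAlgClosed k] {U : Set (Fin (n + 1))}
    {y : Fin (n + 1) → K} (hyU : ∀ j ∈ U, y j ≠ 0) (hgen : coords k y = ⊤)
    (htr : Algebra.trdeg k K = w) {b : Fin (n + 1) → ℕ} (h : Contracts U k y b) :
    AffineFamily U (k := k) y (w - 1) := by
  classical
  have hchK : CharZero K := charZero_of_injective_algebraMap (algebraMap k K).injective
  obtain ⟨i, hi, hbi⟩ := h.fixed
  obtain ⟨i', hi', hbi'⟩ := h.moved
  obtain ⟨δ, σ, g, b', hσ0, hσ, htop, hg, hb', hz⟩ := exists_delta hgen (fun j => (b j : ℤ)) hi hi'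
    (by
      simp only [hbi]
      intro h0
      exact hbi' (by exact_mod_cast h0.symm))
    (fun G hG h0 v => hom_of_contracts hyU h G hG h0 v)
  have hb2 : ∀ j, y j ≠ 0 → (b j : ℤ) = g * b' j := by
    intro j hj
    have h1 := hb' j hj
    simpa only [hbi, Nat.cast_zero, sub_zero] using h1
  have hb0 : ∀ j, y j ≠ 0 → 0 ≤ b' j := by
    intro j hj
    have h1 := hb2 j hj
    by_contra hcon
    push Not at hcon
    have h2 : g * b' j < 0 := mul_neg_of_pos_of_neg hg hcon
    omega
  have hbz : ∀ j, y j ≠ 0 → b j = 0 → b' j = 0 := by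
    intro j hj h0
    have h1 := hb2 j hj
    rw [h0, Nat.cast_zero] at h1
    exact (mul_eq_zero.1 h1.symm).resolve_left hg.ne'
  have hz' : ∀ j, ∃ z, δ z = 0 ∧ y j = y i * (z * σ ^ (b' j).toNat) ∧ (y j ≠ 0 → z ≠ 0) := by
    intro j
    by_cases hj : y j = 0
    · exact ⟨0, map_zero _, by rw [hj, zero_mul, mul_zero], fun h0 => absurd hj h0⟩
    · obtain ⟨z, h1, h2, h3⟩ := hz j hj
      refine ⟨z, h2, ?_, fun _ => h1⟩
      rw [div_eq_iff hi] at h3
      rw [h3, mul_comm (y i)]
      congr 2
      rw [← zpow_natCast, Int.toNat_of_nonneg (hb0 j hj)]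
  choose z hzδ hzy hz0 using hz'
  let M : IntermediateField k K := IntermediateField.adjoin k (Set.range z)
  have hM : ∀ c ∈ M, δ c = 0 := by
    have hle : M ≤ consts δ := by
      rw [IntermediateField.adjoin_le_iff]
      rintro _ ⟨j, rfl⟩
      exact hzδ j
    exact fun c hc => hle hc
  have hσM : Transcendental M σ := transc_of_der δ (by rw [hσ]; exact hσ0) hM
  let u : Fin (n + 1) → M := fun j => ⟨z j, IntermediateField.subset_adjoin k _ ⟨j, rfl⟩⟩
  have htopM : IntermediateField.adjoin M {σ} = ⊤ := by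
    have h1 : ∀ j, z j * σ ^ (b' j).toNat ∈ IntermediateField.adjoin M {σ} := fun j =>
      mul_mem ((IntermediateField.adjoin M {σ}).algebraMap_mem (u j))
        (pow_mem (IntermediateField.mem_adjoin_simple_self _ σ) _)
    have h2 : coords k y ≤ (IntermediateField.adjoin M {σ}).restrictScalars k := by
      unfold coords
      rw [IntermediateField.adjoin_le_iff]
      rintro _ ⟨a, c, hc, rfl⟩
      change _ ∈ IntermediateField.adjoin M {σ}
      rw [hzy a, hzy c, mul_div_mul_left _ _ hi]
      exact div_mem (h1 a) (h1 c)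
    rw [hgen] at h2
    rw [eq_top_iff]
    intro x _
    exact h2 (IntermediateField.mem_top (x := x))
  have hw : ∃ w', w = w' + 1 := by
    cases w with
    | succ w' => exact ⟨w', rfl⟩
    | zero =>
      exfalso
      have h1 : Algebra.IsAlgebraic k K := by
        rw [← trdeg_eq_zero_iff]
        exact_mod_cast htr
      exact hσM ((h1.isAlgebraic σ).extendScalars (algebraMap k M).injective)
  obtain ⟨w', rfl⟩ := hw
  have hdim : Algebra.trdeg k M = w' := by
    refine Pool.Agent.Y190.QP.trdeg_sub hσM ?_ htr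
    rw [htopM]
    infer_instance
  have hzi : z i = 1 := by
    have h1 := hzy i
    rw [hbz i hi hbi, Int.toNat_zero, pow_zero, mul_one] at h1
    exact (mul_left_cancel₀ hi (by rw [mul_one]; exact h1)).symm
  let f : Fin (n + 1) → Polynomial M := fun j => Polynomial.C (u j) * Polynomial.X ^ (b' j).toNat
  have hu0 : ∀ j, y j ≠ 0 → u j ≠ 0 := fun j hj h0 => hz0 j hj (congrArg Subtype.val h0)
  have hfi : f i = 1 := by
    have h1 : u i = 1 := Subtype.ext hzi
    simp only [f]
    rw [hbz i hi hbi, Int.toNat_zero, pow_zero, mul_one, h1, Polynomial.C_1]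
  refine ⟨M, inferInstance, inferInstance, f, ⟨Set.range u, Set.finite_range u, ?_⟩, ?_, ?_,
    ⟨i', ?_⟩, fun j hj => ⟨u j, hu0 j (hyU j hj), ?_⟩, ?_⟩
  · have h2 : (IntermediateField.adjoin k (Set.range u)).map M.val = M := by
      rw [IntermediateField.adjoin_map]
      change IntermediateField.adjoin k _ = IntermediateField.adjoin k _
      congr 1
      ext x
      constructor
      · rintro ⟨_, ⟨j, rfl⟩, rfl⟩
        exact ⟨j, rfl⟩
      · rintro ⟨j, rfl⟩
        exact ⟨u j, ⟨j, rfl⟩, rfl⟩
    rw [eq_top_iff]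
    intro x _
    have h3 : (x : K) ∈ (IntermediateField.adjoin k (Set.range u)).map M.val := by
      rw [h2]
      exact x.2
    obtain ⟨x', hx', he⟩ := h3
    have h4 : x' = x := Subtype.ext he
    rw [← h4]
    exact hx'
  · rw [Nat.add_sub_cancel]
    exact hdim
  · rw [Ideal.eq_top_iff_one]
    exact Ideal.subset_span ⟨i, hfi⟩
  · simp only [f]
    rw [Polynomial.natDegree_C_mul_X_pow _ _ (hu0 i' hi')]
    have h1 := hb2 i' hi'
    have h2 := hb0 i' hi'
    have h3 : b' i' ≠ 0 := by
      intro h0
      rw [h0, mul_zero] at h1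
      exact hbi' (by exact_mod_cast h1)
    omega
  · simp only [f]
    rw [hbz j (hyU j hj) (h.zero j hj), Int.toNat_zero, pow_zero, mul_one]
  · rintro G ⟨e, he⟩
    have h2 : y = fun j => y i * (z j * σ ^ (b' j).toNat) := by
      funext j
      exact hzy j
    have h3 : Pool.Agent.W602.GT.val y G = y i ^ e *
        Polynomial.aeval σ (MvPolynomial.aeval f G : Polynomial M) := by
      have h4 : Polynomial.aeval σ (MvPolynomial.aeval f G : Polynomial M) =
          Pool.Agent.W602.GT.val (fun j => z j * σ ^ (b' j).toNat) G := by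
        have h5 : ((Polynomial.aeval σ : Polynomial M →ₐ[M] K).restrictScalars k).comp
            (MvPolynomial.aeval f) = MvPolynomial.aeval (fun j => z j * σ ^ (b' j).toNat) := by
          apply MvPolynomial.algHom_ext
          intro j
          simp only [AlgHom.comp_apply, MvPolynomial.aeval_X, f]
          change Polynomial.aeval σ (Polynomial.C (u j) * Polynomial.X ^ (b' j).toNat) = _
          simp only [map_mul, Polynomial.aeval_C, map_pow, Polynomial.aeval_X]
          rfl
        unfold Pool.Agent.W602.GT.val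
        rw [← h5]
        rfl
      rw [h4, ← val_smul he]
      exact congrArg (fun y => Pool.Agent.W602.GT.val y G) h2
    rw [h3, mul_eq_zero, or_iff_right (pow_ne_zero _ hi)]
    constructor
    · intro h4
      by_contra hne
      exact hσM ⟨_, hne, h4⟩
    · intro h4
      rw [h4, map_zero]

/-- **Nested sums of high powers of monomials**, the complements of coordinate hyperplanes: the
logarithmic Kodaira dimension and the affine lines. -/
theorem nested_open [CharZero k] [IsAlgClosed k] {U : Set (Fin (n + 1))}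
    {F : ι → MvPolynomial (Fin (n + 1)) k} {s H M : ℕ}
    (hF : ∀ e, IsForm (F e) ∧ NestedIn IsMono s M H (F e))
    (hM : (2 * n + 2) * ((H + 1) * (2 * s + 1) ^ 5) ≤ M)
    {y : Fin (n + 1) → K} (hy : SubVarU U F K w y) (hcomp : IsComponentU U F y) :
    [¬ KodGe k K w (OffU U y) 0, ¬ Psef k K w (OffU U y), AffineFamily U (k := k) y (w - 1),
      ∃ d, AffineFamily U (k := k) y d, ∃ b, Contracts U k y b].TFAE ∧
    ((¬ ∃ b, Contracts U k y b) → ∃ (h p : ℕ) (b : Fin p → Fin (n + 1) → ℤ), h + p = w ∧
      (∀ l, Acts U k y (b l)) ∧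
      (∀ c : Fin p → ℤ, (∀ j j', y j ≠ 0 → y j' ≠ 0 →
        ∑ l, c l * b l j = ∑ l, c l * b l j') → c = 0) ∧
      KodGe k K w (OffU U y) h ∧ ¬ KodGe k K w (OffU U y) (h + 1)) := by
  have hmain : (¬ ∃ b, Contracts U k y b) → ∃ (h p : ℕ) (b : Fin p → Fin (n + 1) → ℤ), h + p = w ∧
      (∀ l, Acts U k y (b l)) ∧
      (∀ c : Fin p → ℤ, (∀ j j', y j ≠ 0 → y j' ≠ 0 →
        ∑ l, c l * b l j = ∑ l, c l * b l j') → c = 0) ∧
      KodGe k K w (OffU U y) h ∧ ¬ KodGe k K w (OffU U y) (h + 1) := by
    intro hex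
    rcases nested_kod hF (bndK_le hM) hy hcomp with h0 | ⟨h, p, b, e1, e2, e3, e4, e5,
      i0, jj, hi0, hjj, hb1, hb2⟩
    · exact absurd h0 hex
    · refine ⟨h, p, b, e1, e2, e3, e4, fun hk => ?_⟩
      have := kod_le hy.unit hy.gen hy.dim b hi0 jj hjj hb1 hb2 e5 hk
      omega
  refine ⟨?_, hmain⟩
  tfae_have 5 → 3 := by
    rintro ⟨b, hb⟩
    exact slice_of_contracts hy.unit hy.gen hy.dim hb
  tfae_have 3 → 4 := fun h => ⟨w - 1, h⟩
  tfae_have 4 → 1 := by
    rintro ⟨d, hd⟩
    exact not_kod_of_affine hy.ne hy.unit hy.gen hy.dim hd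
  tfae_have 1 → 5 := by
    intro h0
    by_contra hex
    obtain ⟨h, p, b, -, -, -, hk, -⟩ := hmain hex
    exact h0 hk.zero
  tfae_have 5 → 2 := by
    rintro ⟨b, hb⟩
    exact contracts_not_psef hy.unit hy.gen hy.dim hb
  tfae_have 2 → 1 := fun h0 hk => h0 (psef_of_kodGe hk)
  tfae_finish

end Pool.Agent.Run7.h546.NL
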