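import Pool.Agent.N133.PC13
import Pool.Agent.Run7.h546.NL.Kod

/-!
The Kodaira dimension and the numerical dimension of log canonical pairs on quasi-projective
varieties given by nested sums of high powers. (The proof of `nested_pair_lc` is that of
`Pool.Agent.N133.PC.sparse_pair_lc`, from `nested_kod` instead of `kod_main2`.)
-/

set_option autoImplicit false
set_option linter.overlappingInstances false
set_option linter.unusedSectionVars false

open FF IntermediateField Pool.Agent.W603.LV Pool.Agent.W602.GT Pool.Agent.N133.PC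
  Pool.Agent.TH710.ND
open Pool.Agent.Y172 (NormalModel IsPrimeDivisor Effective Integral
  LogCanonical kodairaDim numericalDim)
open Pool.Agent.Y191 (LogDisc)

namespace Pool.Agent.Run7.h546.NL

/-- the bound -/
theorem bndK_le {n s h M : ℕ} (hM : (2 * n + 2) * ((h + 1) * (2 * s + 1) ^ 5) ≤ M) :
    bndK n s h ≤ M := by
  have h0 : tn (2 * s - 1) = (2 * s - 1) * (2 * s - 1 - 1) / 2 := by
    unfold tn
    rw [Fin.sum_univ_eq_sum_range (fun i => i), Finset.sum_range_id]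
  have h1 : tn (2 * s - 1) ≤ (2 * s + 1) ^ 2 := by
    rw [h0]
    refine (Nat.div_le_self _ _).trans ?_
    rw [pow_two]
    exact Nat.mul_le_mul (by omega) (by omega)
  have h2 : 2 * s * (2 * s) * ((2 * s + 1) * tn (2 * s - 1)) ≤ (2 * s + 1) ^ 5 := by
    calc 2 * s * (2 * s) * ((2 * s + 1) * tn (2 * s - 1))
        ≤ (2 * s + 1) * (2 * s + 1) * ((2 * s + 1) * (2 * s + 1) ^ 2) :=
          Nat.mul_le_mul (Nat.mul_le_mul (by omega) (by omega)) (Nat.mul_le_mul le_rfl h1)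
      _ = (2 * s + 1) ^ 5 := by ring
  have h3 : (h + 1) * (2 * s * (2 * s)) * ((2 * s + 1) * tn (2 * s - 1)) ≤
      (h + 1) * (2 * s + 1) ^ 5 := by
    rw [mul_assoc]
    exact Nat.mul_le_mul_left _ h2
  have h4 : 1 ≤ (h + 1) * (2 * s + 1) ^ 5 := Nat.one_le_iff_ne_zero.2 (by positivity)
  unfold bndK
  calc (2 * n + 1) * ((h + 1) * (2 * s * (2 * s)) * ((2 * s + 1) * tn (2 * s - 1))) + 1
      ≤ (2 * n + 1) * ((h + 1) * (2 * s + 1) ^ 5) + (h + 1) * (2 * s + 1) ^ 5 :=
        Nat.add_le_add (Nat.mul_le_mul_left _ h3) h4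
    _ = (2 * n + 2) * ((h + 1) * (2 * s + 1) ^ 5) := by ring
    _ ≤ M := hM

variable {n : ℕ} {ι : Type} {K : Type} [Field K] [Algebra ℂ K] {N w : ℕ} {y : Fin (N + 1) → K}
  {z : Fin (n + 1) → K}

/-- **Log canonical pairs on varieties given by nested sums of high powers.** -/
theorem nested_pair_lc {U : Set (Fin (n + 1))} {F : ι → MvPolynomial (Fin (n + 1)) ℂ}
    {s H M : ℕ} (hF : ∀ e, IsForm (F e) ∧ NestedIn IsMono s M H (F e))
    (hM : (2 * n + 2) * ((H + 1) * (2 * s + 1) ^ 5) ≤ M)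
    (hz : SubVarU U F K w z) (hcomp : IsComponentU U F z)
    (hy : NormalModel y) {Δ : Place ℂ K → ℚ} (hΔ : Effective y Δ) (hLC : LogCanonical y w Δ)
    (hone : ∀ P, IsPrimeDivisor y P → OffU U z P → 1 ≤ Δ P)
    (hklt : ∀ Q, Divisorial w Q → ¬ OffU U z Q → ∃ α > 0, LogDisc y w Δ Q α)
    (hcan : ∀ Q, Divisorial w Q → LogDisc y w Δ Q 1 ∨ OverCoord z Q ∨
      ∀ b, Acts U ℂ z b → Tangent z b Q) :
    ((∃ b, Contracts U ℂ z b) ∧ kodairaDim y w Δ = ⊥ ∧
        ∀ A, Effective y A → numericalDim y w Δ A = ⊥) ∨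
      ((¬ ∃ b, Contracts U ℂ z b) ∧
        ∃ (h p : ℕ) (b : Fin p → Fin (n + 1) → ℤ), h + p = w ∧ (∀ l, Acts U ℂ z (b l)) ∧
        (∀ c : Fin p → ℤ, (∀ j j', z j ≠ 0 → z j' ≠ 0 →
          ∑ l, c l * b l j = ∑ l, c l * b l j') → c = 0) ∧
        kodairaDim y w Δ = (h : WithBot ℕ) ∧
        ∀ A, Effective y A → Integral y A → numericalDim y w Δ A = (h : EReal)) := by
  by_cases hex : ∃ b, Contracts U ℂ z b
  · refine Or.inl ⟨hex, ?_⟩
    obtain ⟨b, hb⟩ := hex
    obtain ⟨i, hi, hbi⟩ := hb.fixed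
    obtain ⟨i', hi', hbi'⟩ := hb.moved
    have hH : ∀ G : MvPolynomial (Fin (n + 1)) ℂ, IsForm G → val z G = 0 →
      ∀ v, val z (wc (fun j => (b j : ℤ)) v G) = 0 :=
      fun G hG h3 v => hom_of_contracts hz.unit hb G hG h3 v
    have key : ∀ A, Effective y A → kodairaDim y w Δ = ⊥ ∧ numericalDim y w Δ A = ⊥ :=
      fun A hA => pair_acts (U := U) (b := fun j => (b j : ℤ)) hy hz.dim hLC hz.unit
        hz.gen hi hi' (by
          simp only [hbi]
          intro h3
          exact hbi' (by exact_mod_cast h3.symm)) (fun j hj l _ => by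
          simp only [hb.zero j hj]
          positivity) hH
        (fun Q hQ => (hcan Q hQ).imp_right fun h => h.imp_right fun h =>
          h _ (acts_of_hom hH)) hklt hA
    exact ⟨(key 0 effective_zero).1, fun A hA => (key A hA).2⟩
  · right
    refine ⟨hex, ?_⟩
    rcases nested_kod hF (bndK_le hM) hz hcomp with h0 | ⟨h, p, b, e1, e2, e3, e4, e5,
      i0, jj, hi0, hjj, hb1, hb2⟩
    · exact absurd h0 hex
    · obtain ⟨h6, h7⟩ := torus_pair hy hz.dim hΔ hLC hz.gen hi0 hjj hb1 hb2 e5 hone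
        (fun Q hQ => (hcan Q hQ).imp_right fun h => h.imp_right fun h l => h _ (e2 l)) e1 e4
      exact ⟨h, p, b, e1, e2, e3, h6, h7⟩

end Pool.Agent.Run7.h546.NL
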